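import Pool.Agent.Y110.FJ.Stm4
import Pool.Agent.Y261.FJ.GPI

/-!
Job FJ-INJ (helper110): full subgraphs and retracts of the vertex groups give injective maps of
graph products.
-/

set_option autoImplicit false

namespace Pool.Agent.Y872.FJ

open Pool.Agent.Y110.FJ
open Pool.Agent.Y261.FJ (glift glift_of ghom_ext of_comm)

section

variable {W : Type} {B : W → Type} [∀ w, Group (B w)]

/-- transport along an equality of vertices -/
def cst {w w' : W} (e : w = w') : B w' →* B w := by
  subst e
  exact MonoidHom.id _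

theorem cst_rfl (w : W) (b : B w) : cst (B := B) (rfl : w = w) b = b := rfl

end

theorem t_inj : S_INJ := by
  classical
  intro V W Λ Λ' A B _ _ j φ r hj hadj hr
  obtain ⟨f, hf⟩ : ∃ f : GrP Λ A →* GrP Λ' B,
      ∀ v a, f (GrP.of Λ A v a) = GrP.of Λ' B (j v) (φ v a) := by
    refine ⟨glift (fun v => (GrP.of Λ' B (j v)).comp (φ v)) fun v w h a b => ?_, fun v a => ?_⟩
    · rw [MonoidHom.comp_apply, MonoidHom.comp_apply]
      exact of_comm Λ' B ((hadj v w).2 h) _ _
    · rw [glift_of, MonoidHom.comp_apply]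
  refine ⟨f, hf, ?_⟩
  obtain ⟨ρ, hρ⟩ : ∃ ρ : GrP Λ' B →* GrP Λ A,
      ∀ v a, ρ (GrP.of Λ' B (j v) (φ v a)) = GrP.of Λ A v a := by
    refine ⟨glift (fun w => if h : ∃ v, j v = w then
      (GrP.of Λ A h.choose).comp ((r h.choose).comp (cst h.choose_spec)) else 1)
      (fun w w' hww a b => ?_), fun v a => ?_⟩
    · by_cases h : ∃ v, j v = w
      · by_cases h' : ∃ v, j v = w'
        · rw [dif_pos h, dif_pos h', MonoidHom.comp_apply, MonoidHom.comp_apply]
          apply of_comm
          rw [← hadj, h.choose_spec, h'.choose_spec]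
          exact hww
        · rw [dif_neg h', MonoidHom.one_apply, mul_one, one_mul]
      · rw [dif_neg h, MonoidHom.one_apply, mul_one, one_mul]
    · rw [glift_of]
      have h : ∃ v', j v' = j v := ⟨v, rfl⟩
      rw [dif_pos h]
      have key : ∀ (v' : V) (e : j v' = j v), v' = v →
          ((GrP.of Λ A v').comp ((r v').comp (cst e))) (φ v a) = GrP.of Λ A v a := by
        intro v' e hv
        subst hv
        rw [MonoidHom.comp_apply, MonoidHom.comp_apply, cst_rfl, hr]
      exact key _ h.choose_spec (hj h.choose_spec)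
  have h2 : ρ.comp f = MonoidHom.id _ := by
    apply ghom_ext
    intro v a
    rw [MonoidHom.comp_apply, hf, hρ, MonoidHom.id_apply]
  intro x y hxy
  have h3 := DFunLike.congr_fun h2 x
  have h4 := DFunLike.congr_fun h2 y
  rw [MonoidHom.comp_apply, MonoidHom.id_apply] at h3 h4
  rw [← h3, ← h4, hxy]

end Pool.Agent.Y872.FJ
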